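import Pool.Agent.VMX.StmtsC

set_option autoImplicit false

/-!
# VMX, row UNB: uniform smallness in the face of the vertices different from `0`
-/

namespace Pool.Agent.VMX.H16

open Matrix Filter Topology
open Pool.Agent.PFS Pool.Agent.PFJ Pool.Agent.NBT Pool.Agent.VMX

/-- the simplex with the vertex `0` multiplied by `t` -/
theorem unb_sum {n k : ℕ} (w : Fin (k + 1) → V n) (t : ℝ) :
    ∑ i, (if i = 0 then t else (1 : ℝ)) • w i = t • w 0 + fS w ({0}ᶜ : Finset (Fin (k + 1))) := by
  rw [← Finset.sum_add_sum_compl ({0} : Finset (Fin (k + 1)))]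
  congr 1
  · rw [Finset.sum_singleton, if_pos rfl]
  · unfold fS
    refine Finset.sum_congr rfl fun i hi => ?_
    rw [Finset.mem_compl, Finset.mem_singleton] at hi
    rw [if_neg hi, one_smul]

theorem unb_sum2 {n k : ℕ} (w : Fin (k + 1) → V n) (t : ℝ) (i : Fin (k + 1)) (hi : i ≠ 0) :
    fS (fun j => (if j = 0 then t else (1 : ℝ)) • w j) ({i}ᶜ : Finset (Fin (k + 1)))
      = t • w 0 + fS w ({0, i}ᶜ : Finset (Fin (k + 1))) := by
  have h0 : (0 : Fin (k + 1)) ∈ ({i}ᶜ : Finset (Fin (k + 1))) := by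
    rw [Finset.mem_compl, Finset.mem_singleton]
    exact hi.symm
  have he : ({i}ᶜ : Finset (Fin (k + 1))).erase 0 = ({0, i}ᶜ : Finset (Fin (k + 1))) := by
    ext j
    simp only [Finset.mem_erase, Finset.mem_compl, Finset.mem_singleton, Finset.mem_insert,
      not_or]
  unfold fS
  rw [← Finset.add_sum_erase _ _ h0, he, if_pos rfl]
  congr 1
  refine Finset.sum_congr rfl fun j hj => ?_
  have hj0 : j ≠ 0 := by
    rintro rfl
    simp at hj
  rw [if_neg hj0, one_smul]

theorem unb (UNI : Pool.Agent.KT3.UniStmt) : UnbStmt := by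
  intro n k C Γ hHK τ hτ
  obtain ⟨κ, hκ, H⟩ := UNI n C Γ (k + 1) hHK τ hτ
  refine ⟨κ, hκ, ?_⟩
  intro w hw i φ hi hφ e r hφe hr h1 h2
  have h : CC C Γ := hHK.toCC
  have hP : PCone C := h.toPCone
  have hw0 : w 0 ∈ closure C := hw.1.cl 0
  have key : ∀ t : ℝ, 0 < t →
      r • (κ • (t • w 0 + fS w ({0, i}ᶜ : Finset (Fin (k + 1)))) +
        τ • (t • w 0 + fS w ({0}ᶜ : Finset (Fin (k + 1))))) - e ∈ closure C ∧
      r • (κ • (t • w 0 + fS w ({0, i}ᶜ : Finset (Fin (k + 1)))) +
        τ • (t • w 0 + fS w ({0}ᶜ : Finset (Fin (k + 1))))) + e ∈ closure C := by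
    intro t ht
    have hpos : ∀ j : Fin (k + 1), 0 < (if j = 0 then t else (1 : ℝ)) := by
      intro j
      split_ifs
      · exact ht
      · exact one_pos
    have hw' := (Pool.Agent.PFS.H60.elm n C Γ h (Fin (k + 1)) w hw).1 _ hpos
    have hφ' : KT3.Ph C (fun j => (if j = 0 then t else (1 : ℝ)) • w j) i φ := by
      refine ⟨hφ.pos, ?_, ?_⟩
      · show φ ((if i = 0 then t else (1 : ℝ)) • w i) = 1
        rw [if_neg hi, one_smul, hφ.one]
      · intro j hj
        show φ ((if j = 0 then t else (1 : ℝ)) • w j) = 0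
        rw [map_smul, hφ.zero j hj, smul_zero]
    have hsum := unb_sum w t
    have hcl : r • (t • w 0) ∈ closure C := hP.cl_smul (hP.cl_smul hw0 ht.le) hr
    have h3 := H _ hw' i φ hφ' e r hφe hr
      (by
        rw [hsum]
        have : r • (t • w 0 + fS w ({0}ᶜ : Finset (Fin (k + 1)))) - e
            = r • (t • w 0) + (r • fS w ({0}ᶜ : Finset (Fin (k + 1))) - e) := by
          rw [smul_add]; abel
        rw [this]
        exact hP.cl_add hcl h1)
      (by
        rw [hsum]
        have : r • (t • w 0 + fS w ({0}ᶜ : Finset (Fin (k + 1)))) + e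
            = r • (t • w 0) + (r • fS w ({0}ᶜ : Finset (Fin (k + 1))) + e) := by
          rw [smul_add]; abel
        rw [this]
        exact hP.cl_add hcl h2)
    rw [hsum, unb_sum2 w t i hi] at h3
    exact h3
  constructor
  · refine cl_of_eps (f := (r * (κ + τ)) • w 0) fun t ht => ?_
    have h3 := (key t ht).1
    have : r • (κ • fS w ({0, i}ᶜ : Finset (Fin (k + 1))) +
        τ • fS w ({0}ᶜ : Finset (Fin (k + 1)))) - e + t • (r * (κ + τ)) • w 0
        = r • (κ • (t • w 0 + fS w ({0, i}ᶜ : Finset (Fin (k + 1)))) +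
        τ • (t • w 0 + fS w ({0}ᶜ : Finset (Fin (k + 1))))) - e := by
      module
    rw [this]
    exact h3
  · refine cl_of_eps (f := (r * (κ + τ)) • w 0) fun t ht => ?_
    have h3 := (key t ht).2
    have : r • (κ • fS w ({0, i}ᶜ : Finset (Fin (k + 1))) +
        τ • fS w ({0}ᶜ : Finset (Fin (k + 1)))) + e + t • (r * (κ + τ)) • w 0
        = r • (κ • (t • w 0 + fS w ({0, i}ᶜ : Finset (Fin (k + 1)))) +
        τ • (t • w 0 + fS w ({0}ᶜ : Finset (Fin (k + 1))))) + e := by
      module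
    rw [this]
    exact h3

end Pool.Agent.VMX.H16
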